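import Pool.Agent.U384.SZ.Lead
import Pool.Agent.N226.SX.St

/-!
# Expansions, for sequences which are regular to all orders with step two
-/

set_option autoImplicit false

namespace Pool.Agent.U384.SZ

open Filter Topology
open Pool.Agent.N226.SX Pool.Agent.U611.DX

variable {κ : ℝ} {f : ℕ → ℝ}

/-- the expansion `β log n + ∑ c_i n ^ (-θ_i)` -/
noncomputable def expansion (q : ℕ) (β : ℝ) (c θ : Fin q → ℝ) (n : ℕ) : ℝ :=
  β * Real.log n + ∑ i, c i * (n : ℝ) ^ (-(θ i))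

/-- the difference of order `r` with step `2`, at `n` (up to the sign `(-1)^r`) -/
noncomputable def diff (r : ℕ) (f : ℕ → ℝ) (n : ℕ) : ℝ :=
  ∑ i ∈ Finset.range (r + 1), (-1 : ℝ) ^ i * (r.choose i : ℝ) * f (n + 2 * i)

/-- the expansion of `f` which belongs to the expansion `q`, `-α`, `c`, `θ` of the doubled
sequence -/
noncomputable def doubled (q : ℕ) (α : ℝ) (c θ : Fin q → ℝ) (n : ℕ) : ℝ :=
  α * Real.log 2 + expansion q α (fun i => -(c i) / (2 - 2 ^ (-(θ i)))) θ n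

theorem doubled_G (q : ℕ) (α : ℝ) (c θ : Fin q → ℝ) (n : ℕ) :
    doubled q α c θ n = G (q + 1) α (cf q α c θ) (ex q θ) (n : ℝ) := by
  rw [G_cons]
  unfold doubled expansion
  have : ∑ i, -(c i) / (2 - 2 ^ (-(θ i))) * (n : ℝ) ^ (-(θ i)) =
      -∑ i, c i / (2 - 2 ^ (-(θ i))) * (n : ℝ) ^ (-(θ i)) := by
    rw [← Finset.sum_neg_distrib]
    exact Finset.sum_congr rfl fun i _ => by ring
  rw [this]
  ring

theorem doubled_two (q : ℕ) (α : ℝ) (c θ : Fin q → ℝ) (hθ : ∀ i, 0 ≤ θ i) (n : ℕ) (hn : 1 ≤ n) :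
    doubled q α c θ (2 * n) - 2 * doubled q α c θ n = expansion q (-α) c θ n := by
  have hx : (0 : ℝ) < (n : ℝ) := by exact_mod_cast hn
  rw [doubled_G, doubled_G]
  push_cast
  exact G_double q α c θ hθ n hx

theorem exp_cons (q : ℕ) (α : ℝ) (c θ : Fin q → ℝ) (n : ℕ) :
    expansion (q + 1) α (Fin.cons (α * Real.log 2) (fun i => -(c i) / (2 - 2 ^ (-(θ i)))))
      (Fin.cons 0 θ) n = doubled q α c θ n := by
  unfold doubled expansion
  rw [Fin.sum_univ_succ]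
  simp only [Fin.cons_zero, Fin.cons_succ, neg_zero, Real.rpow_zero, mul_one]
  ring

section

variable (hκ : κ ≤ 1) (F : Dat κ f) {e : ℝ} (he0 : 0 ≤ e) (he : e < κ) (v : ℕ → ℕ)
  (hv : Tendsto v atTop atTop) (hgap : ∀ᶠ j in atTop, (v (j + 1) : ℝ) ≤ v j + (v j : ℝ) ^ e)

include hκ F he0 he hv hgap

/-- expansions from sparse lengths -/
theorem expand (ρ q : ℕ) (β : ℝ) (c θ : Fin q → ℝ) (hθ : ∀ i, 0 ≤ θ i) (M : ℝ) (hM : 0 ≤ M)
    (hval : ∃ C : ℝ, ∀ᶠ j : ℕ in atTop,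
      |f (2 * v j + ρ) - expansion q β c θ (2 * v j + ρ)| ≤ C * (v j : ℝ) ^ (-M))
    (r : ℕ) (b : ℝ) (hb0 : 0 ≤ b) (hb : b < κ) : ∃ C : ℝ, ∀ᶠ k : ℕ in atTop,
      |diff r (fun n => f n - expansion q β c θ n) (2 * k + ρ)| ≤
        C * (k : ℝ) ^ (-(M + b * r)) :=
  Pool.Agent.N226.SX.main_st hκ (f := f) 2 (by norm_num) ρ (F.reg ρ)
    q β c θ hθ M e hM he0 he v hv hgap hval r b hb0 hb

/-- the even lengths -/
theorem double_even (q : ℕ) (α : ℝ) (c θ : Fin q → ℝ) (hθ : ∀ i, 0 ≤ θ i) (M : ℝ) (hM : 0 ≤ M)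
    (hval : ∃ C : ℝ, ∀ᶠ j : ℕ in atTop, |(f (2 * (2 * v j)) - 2 * f (2 * v j)) -
      expansion q (-α) c θ (2 * v j)| ≤ C * (v j : ℝ) ^ (-M)) :
    ∃ C : ℝ, ∀ᶠ k : ℕ in atTop, |f (2 * k) - doubled q α c θ (2 * k)| ≤ C * (k : ℝ) ^ (-M) := by
  simp only [doubled_G]
  have h1 := (F.small.comp (two_mul_tendsto 0)).mul_const 2
  rw [zero_mul] at h1
  refine doubling (κ := κ) hκ (f := f) 2 (by norm_num) (by simpa using F.reg 0) ?_ q α c θ hθ
      M e hM he0 he v hv hgap hval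
  refine h1.congr' ?_
  filter_upwards [eventually_ge_atTop 1] with k hk
  have hkp : (0 : ℝ) < k := by exact_mod_cast hk
  simp only [Function.comp_apply, add_zero]
  push_cast
  field_simp

/-- **expansions of the doubled sequence along sparse lengths** -/
theorem double_all (q : ℕ) (α : ℝ) (c θ : Fin q → ℝ) (hθ : ∀ i, 0 ≤ θ i) (M : ℝ) (hM : 0 ≤ M)
    (hκ0 : 0 < κ) :
    (∀ ρ < 2, ∃ C : ℝ, ∀ᶠ j : ℕ in atTop, |(f (2 * (2 * v j + ρ)) - 2 * f (2 * v j + ρ)) -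
      expansion q (-α) c θ (2 * v j + ρ)| ≤ C * (v j : ℝ) ^ (-M)) ↔
    ∀ (r : ℕ) (b : ℝ), 0 ≤ b → b < κ → ∃ C : ℝ, ∀ᶠ n : ℕ in atTop,
      |diff r (fun n => f n - doubled q α c θ n) n| ≤ C * (n : ℝ) ^ (-(M + b * r)) := by
  constructor
  · intro hval r b hb0 hb
    obtain ⟨C0, hC0⟩ := double_even hκ F he0 he v hv hgap q α c θ hθ M hM (by
      obtain ⟨C, hC⟩ := hval 0 (by norm_num)
      exact ⟨C, hC⟩)
    -- both classes, along the sparse lengths
    have h1 : ∀ ρ < 2, ∃ C : ℝ, ∀ᶠ j : ℕ in atTop,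
        |f (2 * v j + ρ) - doubled q α c θ (2 * v j + ρ)| ≤ C * (v j : ℝ) ^ (-M) := by
      intro ρ hρ
      obtain ⟨C, hC⟩ := hval ρ hρ
      refine ⟨|C0| + |C|, ?_⟩
      have h2 : Tendsto (fun j : ℕ => 2 * v j + ρ) atTop atTop := (two_mul_tendsto ρ).comp hv
      filter_upwards [hC, h2.eventually hC0, hv.eventually_ge_atTop 1] with j h3 h4 h5
      have hv0 : (0 : ℝ) < v j := by exact_mod_cast h5
      obtain ⟨n, hn⟩ : ∃ n, n = 2 * v j + ρ := ⟨_, rfl⟩
      rw [← hn] at h3 h4 ⊢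
      have h7 := doubled_two q α c θ hθ n (by omega)
      rw [← h7] at h3
      have h8 : C0 * (n : ℝ) ^ (-M) ≤ |C0| * (v j : ℝ) ^ (-M) :=
        calc _ ≤ |C0| * (n : ℝ) ^ (-M) :=
              mul_le_mul_of_nonneg_right (le_abs_self C0) (Real.rpow_nonneg (Nat.cast_nonneg _) _)
          _ ≤ _ := mul_le_mul_of_nonneg_left (Real.rpow_le_rpow_of_nonpos hv0
            (by exact_mod_cast (by omega : v j ≤ n)) (by linarith)) (abs_nonneg _)
      have h9 : C * (v j : ℝ) ^ (-M) ≤ |C| * (v j : ℝ) ^ (-M) :=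
        mul_le_mul_of_nonneg_right (le_abs_self C) (Real.rpow_nonneg hv0.le _)
      have h10 := h3.trans h9
      have h11 := h4.trans h8
      have hp : 0 ≤ |C0| * (v j : ℝ) ^ (-M) := by positivity
      have hp2 : 0 ≤ |C| * (v j : ℝ) ^ (-M) := by positivity
      rw [add_mul]
      rw [abs_le] at h10 h11 ⊢
      constructor <;> linarith [h10.1, h10.2, h11.1, h11.2]
    -- both classes, all the lengths
    have h2 : ∀ ρ < 2, ∃ C : ℝ, ∀ᶠ k : ℕ in atTop,
        |diff r (fun n => f n - doubled q α c θ n) (2 * k + ρ)| ≤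
          C * (k : ℝ) ^ (-(M + b * r)) := by
      intro ρ hρ
      have h3 := expand hκ F he0 he v hv hgap ρ (q + 1) α
        (Fin.cons (α * Real.log 2) (fun i => -(c i) / (2 - 2 ^ (-(θ i))))) (Fin.cons 0 θ)
        (fun i => by
          refine Fin.cases ?_ (fun i => ?_) i
          · simp
          · simpa using hθ i) M hM
        (by simp only [exp_cons]; exact h1 ρ hρ) r b hb0 hb
      simp only [exp_cons] at h3
      exact h3
    obtain ⟨C1, hC1⟩ := h2 0 (by norm_num)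
    obtain ⟨C2, hC2⟩ := h2 1 (by norm_num)
    obtain ⟨N1, hN1⟩ := eventually_atTop.1 hC1
    obtain ⟨N2, hN2⟩ := eventually_atTop.1 hC2
    have hx : 0 ≤ M + b * r := by positivity
    refine ⟨(|C1| + |C2|) * 3 ^ (M + b * r), ?_⟩
    filter_upwards [eventually_ge_atTop (2 * (N1 + N2) + 2)] with n hn
    have hn0 : (0 : ℝ) < n := by exact_mod_cast (by omega : 0 < n)
    obtain ⟨k, ρ, hρ, rfl⟩ : ∃ k ρ, ρ < 2 ∧ n = 2 * k + ρ :=
      ⟨n / 2, n % 2, Nat.mod_lt _ (by norm_num), by omega⟩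
    have hk1 : 1 ≤ k := by omega
    have hk0 : (0 : ℝ) < k := by exact_mod_cast hk1
    have h5 : |diff r (fun n => f n - doubled q α c θ n) (2 * k + ρ)| ≤
        (|C1| + |C2|) * (k : ℝ) ^ (-(M + b * r)) := by
      have hr0 : 0 ≤ (k : ℝ) ^ (-(M + b * r)) := Real.rpow_nonneg hk0.le _
      interval_cases ρ
      · exact (hN1 k (by omega)).trans (mul_le_mul_of_nonneg_right
          ((le_abs_self C1).trans (by linarith [abs_nonneg C2])) hr0)
      · exact (hN2 k (by omega)).trans (mul_le_mul_of_nonneg_right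
          ((le_abs_self C2).trans (by linarith [abs_nonneg C1])) hr0)
    refine h5.trans ?_
    have h7 : (k : ℝ) ^ (-(M + b * r)) ≤ 3 ^ (M + b * r) * ((2 * k + ρ : ℕ) : ℝ) ^ (-(M + b * r)) := by
      have h8 : (((2 * k + ρ : ℕ) : ℝ) / 3) ≤ (k : ℝ) := by
        rw [div_le_iff₀ (by norm_num)]
        exact_mod_cast (by omega : 2 * k + ρ ≤ k * 3)
      calc (k : ℝ) ^ (-(M + b * r)) ≤ (((2 * k + ρ : ℕ) : ℝ) / 3) ^ (-(M + b * r)) :=
            Real.rpow_le_rpow_of_nonpos (by positivity) h8 (by linarith)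
        _ = _ := by
            rw [Real.div_rpow hn0.le (by norm_num), Real.rpow_neg (by norm_num : (0:ℝ) ≤ 3),
              div_inv_eq_mul, mul_comm]
    calc (|C1| + |C2|) * (k : ℝ) ^ (-(M + b * r))
        ≤ (|C1| + |C2|) * (3 ^ (M + b * r) * ((2 * k + ρ : ℕ) : ℝ) ^ (-(M + b * r))) :=
          mul_le_mul_of_nonneg_left h7 (by positivity)
      _ = _ := by ring
  · intro h ρ hρ
    obtain ⟨C, hC⟩ := h 0 0 le_rfl hκ0
    have hC' : ∀ᶠ n : ℕ in atTop, |f n - doubled q α c θ n| ≤ C * (n : ℝ) ^ (-M) := by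
      filter_upwards [hC] with n hn
      simp [diff] at hn
      exact hn
    refine ⟨3 * |C|, ?_⟩
    have h1 : Tendsto (fun j : ℕ => 2 * v j + ρ) atTop atTop := (two_mul_tendsto ρ).comp hv
    have h2 : Tendsto (fun j : ℕ => 2 * (2 * v j + ρ)) atTop atTop :=
      tendsto_atTop_mono (fun j => (by omega : 2 * v j + ρ ≤ 2 * (2 * v j + ρ))) h1
    filter_upwards [h1.eventually hC', h2.eventually hC', hv.eventually_ge_atTop 1] with j h3 h4 h5
    have hv0 : (0 : ℝ) < v j := by exact_mod_cast h5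
    obtain ⟨n, hn⟩ : ∃ n, n = 2 * v j + ρ := ⟨_, rfl⟩
    have hvn : v j ≤ n := by omega
    rw [← hn] at h3 h4 ⊢
    have h7 := doubled_two q α c θ hθ n (by omega)
    rw [← h7]
    have hb : ∀ m : ℕ, v j ≤ m → C * (m : ℝ) ^ (-M) ≤ |C| * (v j : ℝ) ^ (-M) := fun m hm =>
      calc _ ≤ |C| * (m : ℝ) ^ (-M) :=
            mul_le_mul_of_nonneg_right (le_abs_self C) (Real.rpow_nonneg (Nat.cast_nonneg _) _)
        _ ≤ _ := mul_le_mul_of_nonneg_left (Real.rpow_le_rpow_of_nonpos hv0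
          (by exact_mod_cast hm) (by linarith)) (abs_nonneg _)
    have h10 := h3.trans (hb n hvn)
    have h11 := h4.trans (hb (2 * n) (by omega))
    rw [abs_le] at h10 h11 ⊢
    constructor <;> linarith [h10.1, h10.2, h11.1, h11.2]

end

end Pool.Agent.U384.SZ
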