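import Pool.Agent.U384.SZ.Dbl

/-!
# Leading order and expansions, for sequences which are regular to all orders with step two
-/

set_option autoImplicit false

namespace Pool.Agent.U384.SZ

open Filter Topology
open Pool.Agent.N226.SX Pool.Agent.U611.DX

/-- what we use -/
structure Dat (κ : ℝ) (f : ℕ → ℝ) : Prop where
  reg : ∀ ρ : ℕ, Reg κ (fun k => f (2 * k + ρ))
  small : Tendsto (fun n : ℕ => f n / n) atTop (𝓝 0)

variable {κ : ℝ} {f : ℕ → ℝ}

theorem reg_log (hκ : κ ≤ 1) (α : ℝ) (ρ : ℕ) :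
    Reg κ (fun k : ℕ => α * Real.log ((2 * k + ρ : ℕ) : ℝ)) := by
  have h := reg_G2 κ hκ ρ 0 α (fun _ => 0) (fun _ => 0) (fun _ => le_rfl)
  refine cast ?_ h
  congr 1
  funext k
  simp only [G]
  simp

theorem Reg.neg' {h : ℕ → ℝ} (H : Reg κ h) : Reg κ (fun k => -h k) := by
  intro a ha0 ha r hr
  have := Bd.smul (-1) (H a ha0 ha r hr)
  simpa using this

theorem Reg.add' {h g : ℕ → ℝ} (H : Reg κ h) (H' : Reg κ g) : Reg κ (fun k => h k + g k) := by
  intro a ha0 ha r hr
  exact (H a ha0 ha r hr).add (H' a ha0 ha r hr)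

theorem two_mul_tendsto (ρ : ℕ) : Tendsto (fun k : ℕ => 2 * k + ρ) atTop atTop :=
  tendsto_atTop_mono (fun k => (by omega : k ≤ 2 * k + ρ)) tendsto_id

/-- from the two parity classes to all lengths -/
theorem two_classes {g : ℕ → ℝ} {a : ℝ} (h0 : Tendsto (fun k : ℕ => g (2 * k)) atTop (𝓝 a))
    (h1 : Tendsto (fun k : ℕ => g (2 * k + 1)) atTop (𝓝 a)) : Tendsto g atTop (𝓝 a) := by
  rw [Metric.tendsto_atTop] at h0 h1 ⊢
  intro ε hε
  obtain ⟨N0, hN0⟩ := h0 ε hε
  obtain ⟨N1, hN1⟩ := h1 ε hε
  refine ⟨2 * (N0 + N1) + 1, fun n hn => ?_⟩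
  rcases Nat.even_or_odd' n with ⟨k, rfl | rfl⟩
  · exact hN0 k (by omega)
  · exact hN1 k (by omega)

section

variable (hκ : κ ≤ 1) (F : Dat κ f) {e : ℝ} (he0 : 0 ≤ e) (he : e < κ) (v : ℕ → ℕ)
  (hv : Tendsto v atTop atTop) (hgap : ∀ᶠ j in atTop, (v (j + 1) : ℝ) ≤ v j + (v j : ℝ) ^ e)

include hκ F he0 he hv hgap

/-- the leading order from one parity class of sparse lengths -/
theorem class_lim (α a : ℝ) (ρ : ℕ)
    (h : Tendsto (fun j => f (2 * v j + ρ) - α * Real.log ((2 * v j + ρ : ℕ) : ℝ)) atTop (𝓝 a)) :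
    Tendsto (fun k => f (2 * k + ρ) - α * Real.log ((2 * k + ρ : ℕ) : ℝ)) atTop (𝓝 a) :=
  spread hκ (g := fun k => f (2 * k + ρ) - α * Real.log ((2 * k + ρ : ℕ) : ℝ))
    ((F.reg ρ).sub (reg_log hκ α ρ)) he0 he v hv hgap h

/-- **leading order**, from sparse lengths -/
theorem lead_sparse (α a : ℝ) :
    (∀ ρ < 2, Tendsto (fun j => f (2 * v j + ρ) - α * Real.log ((2 * v j + ρ : ℕ) : ℝ)) atTop
      (𝓝 a)) ↔ Tendsto (fun n : ℕ => f n - α * Real.log n) atTop (𝓝 a) := by
  constructor
  · intro h
    refine two_classes ?_ ?_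
    · exact class_lim hκ F he0 he v hv hgap α a 0 (h 0 (by norm_num))
    · exact class_lim hκ F he0 he v hv hgap α a 1 (h 1 (by norm_num))
  · intro h ρ _
    exact h.comp ((two_mul_tendsto ρ).comp hv)

/-- **leading order**, from the doubling ratio at sparse lengths -/
theorem lead_double (α a : ℝ) :
    (∀ ρ < 2, Tendsto (fun j => f (2 * (2 * v j + ρ)) - 2 * f (2 * v j + ρ) +
      α * Real.log ((2 * v j + ρ : ℕ) : ℝ)) atTop (𝓝 (α * Real.log 2 - a))) ↔
    Tendsto (fun n : ℕ => f n - α * Real.log n) atTop (𝓝 a) := by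
  constructor
  · intro h
    -- the even lengths
    have hF0 : Reg κ (fun k => f (2 * k)) := by
      have := F.reg 0
      simpa using this
    have hL0 : Reg κ (fun k : ℕ => α * Real.log ((2 * k : ℕ) : ℝ)) := by
      have := reg_log hκ α 0
      simpa using this
    have hG : Reg κ (fun k => ((f (2 * (2 * k)) - f (2 * k)) - f (2 * k)) +
        α * Real.log ((2 * k : ℕ) : ℝ)) :=
      Reg.add' (((reg_double hF0).sub hF0).sub hF0) hL0
    have h0 : Tendsto (fun k : ℕ => ((f (2 * (2 * k)) - f (2 * k)) - f (2 * k)) +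
        α * Real.log ((2 * k : ℕ) : ℝ)) atTop (𝓝 (α * Real.log 2 - a)) := by
      refine spread hκ hG he0 he v hv hgap ?_
      refine (h 0 (by norm_num)).congr fun j => ?_
      simp only [add_zero]
      ring
    have hT0 : Tendsto (fun k : ℕ => f (2 * k) - α * Real.log ((2 * k : ℕ) : ℝ) - a) atTop
        (𝓝 0) := by
      refine half ?_ ?_
      · have h1 := h0.sub_const (α * Real.log 2 - a)
        rw [sub_self] at h1
        refine h1.congr' ?_
        filter_upwards [eventually_ge_atTop 1] with k hk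
        have hk0 : (0 : ℝ) < ((2 * k : ℕ) : ℝ) := by exact_mod_cast (by omega : 0 < 2 * k)
        have e1 : Real.log ((2 * (2 * k) : ℕ) : ℝ) = Real.log 2 + Real.log ((2 * k : ℕ) : ℝ) := by
          rw [← Real.log_mul (by norm_num) hk0.ne']
          congr 1
          push_cast
          ring
        rw [e1]
        ring
      · have h1 := (F.small.comp (two_mul_tendsto 0)).mul_const 2
        have h2 : Tendsto (fun k : ℕ => Real.log ((2 * k : ℕ) : ℝ) / k) atTop (𝓝 0) := by
          have h3 : Tendsto (fun x : ℝ => Real.log x / x) atTop (𝓝 0) := by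
            have := Real.isLittleO_log_id_atTop.tendsto_div_nhds_zero
            simpa using this
          have h4 := ((h3.comp tendsto_natCast_atTop_atTop).comp (two_mul_tendsto 0)).mul_const 2
          rw [zero_mul] at h4
          refine h4.congr' ?_
          filter_upwards [eventually_ge_atTop 1] with k hk
          have hkp : (0 : ℝ) < k := by exact_mod_cast hk
          simp only [Function.comp_apply, add_zero]
          push_cast
          field_simp
        have h3 : Tendsto (fun k : ℕ => a / (k : ℝ)) atTop (𝓝 0) :=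
          tendsto_natCast_atTop_atTop.const_div_atTop a
        have h4 := (h1.sub (h2.const_mul α)).sub h3
        rw [zero_mul, mul_zero, sub_zero, sub_zero] at h4
        refine h4.congr' ?_
        filter_upwards [eventually_ge_atTop 1] with k hk
        have hkp : (0 : ℝ) < k := by exact_mod_cast hk
        simp only [Function.comp_apply, add_zero]
        push_cast
        field_simp
    have hE : Tendsto (fun k : ℕ => f (2 * k) - α * Real.log ((2 * k : ℕ) : ℝ)) atTop (𝓝 a) := by
      have := hT0.add_const a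
      simpa using this
    refine two_classes hE ?_
    -- the odd lengths
    refine class_lim hκ F he0 he v hv hgap α a 1 ?_
    have h1 := h 1 (by norm_num)
    have h2 : Tendsto (fun j => f (2 * (2 * v j + 1)) -
        α * Real.log ((2 * (2 * v j + 1) : ℕ) : ℝ)) atTop (𝓝 a) :=
      hE.comp ((two_mul_tendsto 1).comp hv)
    have h3 := ((h2.sub h1).add_const (α * Real.log 2)).mul_const (1 / 2)
    have e0 : (a - (α * Real.log 2 - a) + α * Real.log 2) * (1 / 2) = a := by ring
    rw [e0] at h3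
    refine h3.congr fun j => ?_
    have hn : (0 : ℝ) < ((2 * v j + 1 : ℕ) : ℝ) := by exact_mod_cast (by omega : 0 < 2 * v j + 1)
    have e1 : Real.log ((2 * (2 * v j + 1) : ℕ) : ℝ) =
        Real.log 2 + Real.log ((2 * v j + 1 : ℕ) : ℝ) := by
      rw [← Real.log_mul (by norm_num) hn.ne']
      congr 1
      push_cast
      ring
    rw [e1]
    ring
  · intro h ρ _
    have h1 : Tendsto (fun j => f (2 * v j + ρ) - α * Real.log ((2 * v j + ρ : ℕ) : ℝ)) atTop
        (𝓝 a) := h.comp ((two_mul_tendsto ρ).comp hv)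
    have h2 : Tendsto (fun j => f (2 * (2 * v j + ρ)) -
        α * Real.log ((2 * (2 * v j + ρ) : ℕ) : ℝ)) atTop (𝓝 a) :=
      h.comp ((two_mul_tendsto 0).comp ((two_mul_tendsto ρ).comp hv))
    have h3 := (h2.sub (h1.const_mul 2)).add_const (α * Real.log 2)
    have e0 : a - 2 * a + α * Real.log 2 = α * Real.log 2 - a := by ring
    rw [e0] at h3
    refine h3.congr' ?_
    filter_upwards [hv.eventually_ge_atTop 1] with j hj
    have hn : (0 : ℝ) < ((2 * v j + ρ : ℕ) : ℝ) := by exact_mod_cast (by omega : 0 < 2 * v j + ρ)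
    have e1 : Real.log ((2 * (2 * v j + ρ) : ℕ) : ℝ) =
        Real.log 2 + Real.log ((2 * v j + ρ : ℕ) : ℝ) := by
      rw [← Real.log_mul (by norm_num) hn.ne']
      congr 1
      push_cast
      ring
    rw [e1]
    ring

end

end Pool.Agent.U384.SZ
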