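import Pool.Agent.N932.FL.LogSq

/-!
# The growth laws and the universal kernel are probability laws, and the kernel charges the support
-/

set_option autoImplicit false

namespace Pool.Agent.U384.SZ

open scoped Classical
open Pool.Agent.N932.FL

variable {V : Type} [AddCommGroup V]

theorem laws (L : Lat V) {n M l t : ℕ} {A' : Set (Fin (n + 1) → V)} (hA' : A' ⊆ L.walks n)
    {ω : Fin (n + 1) → V} (hω : ω ∈ A') (hl : 1 ≤ l) (hlM : l ≤ M) (hM : M ≤ t)
    (ht : t + M ≤ n) :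
    (∑ᶠ ζ ∈ L.walks l, L.growth A' t l ω ζ = 1) ∧
    (∑ᶠ ζ ∈ L.walks l, L.kernel M l (L.piece (t - M) M ω) ζ = 1) ∧
    ∀ ζ : Fin (l + 1) → V, 0 ≤ L.growth A' t l ω ζ ∧
      0 ≤ L.kernel M l (L.piece (t - M) M ω) ζ ∧
      (0 < L.growth A' t l ω ζ → 0 < L.kernel M l (L.piece (t - M) M ω) ζ) := by
  letI := L.sys
  have hfin : A'.Finite := (L.finite n).subset hA'
  obtain ⟨A, rfl⟩ : ∃ A : Finset (SP V n), A' = (A : Set (SP V n)) :=
    ⟨hfin.toFinset, hfin.coe_toFinset.symm⟩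
  have hA : A ⊆ L.W n := by
    intro ω hω
    exact L.mem_W.2 (hA' hω)
  have hω' : (ω : SP V n) ∈ A := hω
  have hr : 0 < ((M + 1 - l : ℕ) : ℝ) := by exact_mod_cast (by omega : 0 < M + 1 - l)
  refine ⟨?_, ?_, fun ζ => ⟨?_, ?_, ?_⟩⟩
  · rw [L.finsum_walks]
    have h1 : ∀ ζ ∈ L.W l, L.growth (A : Set (SP V n)) t l ω ζ =
        @PA (SP V) L.sys n A t l ω ζ := fun ζ _ => L.growth_eq A ω ζ
    rw [Finset.sum_congr rfl h1]
    exact PA_sum (P := SP V) hA hω' (by omega)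
  · rw [L.finsum_walks]
    have h1 : ∀ ζ ∈ L.W l, L.kernel M l (L.piece (t - M) M ω) ζ =
        @KQ (SP V) L.sys n M l t ω ζ := fun ζ _ => L.kernel_eq hl hlM hM ω ζ
    rw [Finset.sum_congr rfl h1]
    unfold KQ
    rw [← Finset.sum_div, Finset.sum_comm]
    have h2 : ∀ i ∈ Finset.range (M + 1 - l), ∑ ζ ∈ L.W l,
        @GQ (SP V) L.sys n (t - i) M i l ω ζ = 1 := by
      intro i hi
      rw [Finset.mem_range] at hi
      exact GQ_sum (P := SP V) (hA hω') (by omega) (by omega)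
    rw [Finset.sum_congr rfl h2, Finset.sum_const, Finset.card_range, nsmul_eq_mul, mul_one,
      div_self hr.ne']
  · rw [L.growth_eq A]
    exact PA_nonneg (P := SP V) A t l ω ζ
  · rw [L.kernel_eq hl hlM hM ω ζ]
    unfold KQ
    exact div_nonneg (Finset.sum_nonneg fun i _ => GQ_nonneg (P := SP V) _ _ _ _ _ _ _) hr.le
  · intro h
    rw [L.growth_eq A] at h
    rw [L.kernel_eq hl hlM hM ω ζ]
    unfold KQ
    refine div_pos (Finset.sum_pos (fun i hi => ?_) ⟨0, Finset.mem_range.2 (by omega)⟩) hr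
    rw [Finset.mem_range] at hi
    refine GQ_posA (P := SP V) hA hω' (by omega) (by omega) ?_
    rw [show t - i + i = t by omega]
    exact h

end Pool.Agent.U384.SZ
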